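import Mathlib
import Pool.Agent.Helper74.Thue.Final

/-!
`π_l(P_∞[K_k]) ≤ 115200 k` for every `k`, for the two-way infinite path, the one-way infinite path
and every finite path, with lists from an arbitrary set of colours.
-/

set_option autoImplicit false

namespace Pool.Agent.Results.MP_0e9ba1_co.LinearThueChoice

/-- The lexicographic product `G[H]`: `(v₁, w₁)` is adjacent to `(v₂, w₂)` if and only if `v₁` is
adjacent to `v₂` in `G`, or `v₁ = v₂` and `w₁` is adjacent to `w₂` in `H`. -/
def lexProd {V W : Type} (G : SimpleGraph V) (H : SimpleGraph W) : SimpleGraph (V × W) where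
  Adj p q := G.Adj p.1 q.1 ∨ (p.1 = q.1 ∧ H.Adj p.2 q.2)
  symm := ⟨by
    rintro p q (h | ⟨h1, h2⟩)
    · exact Or.inl h.symm
    · exact Or.inr ⟨h1.symm, h2.symm⟩⟩
  loopless := ⟨by
    rintro p (h | ⟨_, h⟩)
    · exact h.ne rfl
    · exact h.ne rfl⟩

/-- A vertex colouring is nonrepetitive if no path `v 0, …, v (2 t - 1)` with `t ≥ 1` (distinct
vertices, consecutive ones adjacent) satisfies `c (v i) = c (v (i + t))` for all `i < t`. -/
def Nonrepetitive {V C : Type} (G : SimpleGraph V) (c : V → C) : Prop :=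
  ∀ t : ℕ, 1 ≤ t → ∀ v : Fin (2 * t) → V, Function.Injective v →
    (∀ i j : Fin (2 * t), (j : ℕ) = i + 1 → G.Adj (v i) (v j)) →
    ¬ ∀ i j : Fin (2 * t), (j : ℕ) = i + t → c (v i) = c (v j)

/-- The Thue choice number `π_l(G)`: the least `l` such that for every set `C` of colours and
every assignment of finite lists `L v ⊆ C` with `|L v| ≥ l` there is a nonrepetitive colouring `c`
with `c v ∈ L v` for all `v`; it is `∞` if there is no such `l`. -/
noncomputable def thueChoice {V : Type} (G : SimpleGraph V) : ℕ∞ :=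
  sInf {m : ℕ∞ | ∃ l : ℕ, m = l ∧ ∀ (C : Type) (L : V → Finset C), (∀ v, l ≤ (L v).card) →
    ∃ c : V → C, (∀ v, c v ∈ L v) ∧ Nonrepetitive G c}

/-- The list colouring property with lists of size `l`. -/
def Good {V : Type} (G : SimpleGraph V) (l : ℕ) : Prop :=
  ∀ (C : Type) (L : V → Finset C), (∀ v, l ≤ (L v).card) →
    ∃ c : V → C, (∀ v, c v ∈ L v) ∧ Nonrepetitive G c

theorem thueChoice_le {V : Type} {G : SimpleGraph V} {l : ℕ} (h : Good G l) :
    thueChoice G ≤ l :=
  sInf_le ⟨l, rfl, h⟩

theorem Nonrepetitive.comap {V W C : Type} {G : SimpleGraph V} {H : SimpleGraph W} {c : W → C}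
    (hc : Nonrepetitive H c) (φ : V → W) (hφ : Function.Injective φ)
    (hadj : ∀ x y, G.Adj x y → H.Adj (φ x) (φ y)) : Nonrepetitive G (fun x => c (φ x)) := by
  intro t ht v hv ha hrep
  exact hc t ht (fun i => φ (v i)) (hφ.comp hv) (fun i j hij => hadj _ _ (ha i j hij))
    (fun i j hij => hrep i j hij)

theorem Good.of_embedding {V W : Type} {G : SimpleGraph V} {H : SimpleGraph W} {l : ℕ}
    (h : Good H l) (φ : V → W) (hφ : Function.Injective φ)
    (hadj : ∀ x y, G.Adj x y → H.Adj (φ x) (φ y)) : Good G l := by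
  classical
  intro C L hL
  rcases isEmpty_or_nonempty V with hV | ⟨⟨v₀⟩⟩
  · refine ⟨fun v => isEmptyElim v, fun v => isEmptyElim v, ?_⟩
    intro t ht v _ _ _
    exact isEmptyElim (v ⟨0, by omega⟩)
  · obtain ⟨c, hc1, hc2⟩ := h C
      (fun w => if hw : ∃ v, φ v = w then L hw.choose else L v₀) (by
        intro w
        split_ifs with hw
        · exact hL _
        · exact hL _)
    refine ⟨fun v => c (φ v), fun v => ?_, hc2.comap φ hφ hadj⟩
    have h1 := hc1 (φ v)
    have hw : ∃ v', φ v' = φ v := ⟨v, rfl⟩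
    rw [dif_pos hw] at h1
    rwa [hφ hw.choose_spec] at h1

/-- compactness -/
theorem compactness {V : Type} (G : SimpleGraph V) (L : V → Finset ℕ)
    (h : ∀ F : Finset V, ∃ c : V → ℕ, (∀ v, c v ∈ L v) ∧
      ∀ t : ℕ, 1 ≤ t → ∀ v : Fin (2 * t) → V, (∀ i, v i ∈ F) → Function.Injective v →
      (∀ i j : Fin (2 * t), (j : ℕ) = i + 1 → G.Adj (v i) (v j)) →
      ¬ ∀ i j : Fin (2 * t), (j : ℕ) = i + t → c (v i) = c (v j)) :
    ∃ c : V → ℕ, (∀ v, c v ∈ L v) ∧ Nonrepetitive G c := by
  classical
  let ι := {q : (Σ t : ℕ, Fin (2 * t) → V) // 1 ≤ q.1 ∧ Function.Injective q.2 ∧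
    ∀ i j : Fin (2 * q.1), (j : ℕ) = i + 1 → G.Adj (q.2 i) (q.2 j)}
  let X := (v : V) → {γ : ℕ // γ ∈ L v}
  let A : ι → Set X := fun q =>
    {f | ¬ ∀ i j : Fin (2 * q.1.1), (j : ℕ) = i + q.1.1 → (f (q.1.2 i)).val = (f (q.1.2 j)).val}
  have hcl : ∀ q, IsClosed (A q) := by
    intro q
    rw [← isOpen_compl_iff]
    have e : (A q)ᶜ = ⋂ i : Fin (2 * q.1.1), ⋂ j : Fin (2 * q.1.1),
        {f : X | (j : ℕ) = i + q.1.1 → (f (q.1.2 i)).val = (f (q.1.2 j)).val} := by
      ext f
      simp only [A, Set.mem_compl_iff, Set.mem_ofPred_eq, not_not, Set.mem_iInter]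
    rw [e]
    apply isOpen_iInter_of_finite
    intro i
    apply isOpen_iInter_of_finite
    intro j
    have h1 : Continuous (fun f : X => (f (q.1.2 i)).val) :=
      continuous_subtype_val.comp (continuous_apply _)
    have h2 : Continuous (fun f : X => (f (q.1.2 j)).val) :=
      continuous_subtype_val.comp (continuous_apply _)
    exact (isOpen_discrete {p : ℕ × ℕ | (j : ℕ) = i + q.1.1 → p.1 = p.2}).preimage
      (h1.prodMk h2)
  have hfin : ∀ s : Finset ι, (⋂ q ∈ s, A q).Nonempty := by
    intro s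
    obtain ⟨c, hc1, hc2⟩ := h (s.biUnion (fun q => Finset.univ.image q.1.2))
    refine ⟨fun v => ⟨c v, hc1 v⟩, ?_⟩
    simp only [Set.mem_iInter]
    intro q hq hrep
    refine hc2 q.1.1 q.2.1 q.1.2 (fun i => ?_) q.2.2.1 q.2.2.2 hrep
    rw [Finset.mem_biUnion]
    exact ⟨q, hq, Finset.mem_image_of_mem _ (Finset.mem_univ i)⟩
  have : CompactSpace X := by infer_instance
  obtain ⟨f, hf⟩ := CompactSpace.iInter_nonempty hcl hfin
  refine ⟨fun v => (f v).val, fun v => (f v).2, ?_⟩
  intro t ht v hv ha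
  rw [Set.mem_iInter] at hf
  exact hf ⟨⟨t, v⟩, ht, hv, ha⟩

/-- colours in the naturals suffice for countable graphs -/
theorem good_of_nat {V : Type} [Countable V] (G : SimpleGraph V) (l : ℕ)
    (h : ∀ L : V → Finset ℕ, (∀ v, l ≤ (L v).card) →
      ∃ c : V → ℕ, (∀ v, c v ∈ L v) ∧ Nonrepetitive G c) : Good G l := by
  classical
  intro C L hL
  have hcount : (⋃ v, (L v : Set C)).Countable :=
    Set.countable_iUnion fun v => (L v).countable_toSet
  obtain ⟨e, he⟩ := Set.countable_iff_exists_injOn.1 hcount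
  have hinj : ∀ v, Set.InjOn e (L v : Set C) := fun v =>
    he.mono (Set.subset_iUnion (fun v => (L v : Set C)) v)
  obtain ⟨c, hc1, hc2⟩ := h (fun v => (L v).image e) (fun v => by
    rw [Finset.card_image_of_injOn (hinj v)]
    exact hL v)
  have hex : ∀ v, ∃ γ ∈ L v, e γ = c v := fun v => Finset.mem_image.1 (hc1 v)
  choose d hd1 hd2 using hex
  refine ⟨d, hd1, ?_⟩
  intro t ht v hv ha hrep
  refine hc2 t ht v hv ha (fun i j hij => ?_)
  rw [← hd2, ← hd2, hrep i j hij]

theorem good_line (k : ℕ) : Good (lexProd (SimpleGraph.hasse ℤ) (⊤ : SimpleGraph (Fin k)))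
    (115200 * k) := by
  classical
  rcases Nat.eq_zero_or_pos k with hk | hk
  · subst hk
    intro C L hL
    refine ⟨fun v => v.2.elim0, fun v => v.2.elim0, ?_⟩
    intro t ht v _ _ _
    exact (v ⟨0, by omega⟩).2.elim0
  · refine good_of_nat _ _ fun L hL => compactness _ L fun F => ?_
    obtain ⟨N, hN⟩ : ∃ N : ℕ, ∀ p ∈ F, -(N : ℤ) ≤ p.1 := by
      refine ⟨F.sup (fun p => p.1.natAbs), fun p hp => ?_⟩
      have h1 : p.1.natAbs ≤ F.sup (fun p => p.1.natAbs) :=
        Finset.le_sup (f := fun p : ℤ × Fin k => p.1.natAbs) hp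
      omega
    obtain ⟨f, hf1, hf2⟩ := Pool.Agent.Helper74.Thue.infinite_thm k hk
      (fun p => L ((p.1 : ℤ) - N, p.2)) (fun p => hL _)
    have hne : ∀ v, (L v).Nonempty := by
      intro v
      rw [← Finset.card_pos]
      have h1 := hL v
      have h2 : 0 < 115200 * k := by omega
      omega
    refine ⟨fun p => if -(N : ℤ) ≤ p.1 then f ((p.1 + N).toNat, p.2) else (hne p).choose,
      fun p => ?_, ?_⟩
    · simp only
      split_ifs with hp
      · have h1 := hf1 ((p.1 + N).toNat, p.2)
        have h2 : (((p.1 + N).toNat : ℕ) : ℤ) - N = p.1 := by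
          rw [Int.toNat_of_nonneg (by omega)]; ring
        simp only [h2] at h1
        exact h1
      · exact (hne p).choose_spec
    · intro t ht v hvF hv ha hrep
      let w : ℕ → ℕ × Fin k := fun s =>
        if hs : s < 2 * t then (((v ⟨s, hs⟩).1 + N).toNat, (v ⟨s, hs⟩).2) else (0, ⟨0, hk⟩)
      have hw : ∀ s (hs : s < 2 * t), w s = (((v ⟨s, hs⟩).1 + N).toNat, (v ⟨s, hs⟩).2) := by
        intro s hs
        simp only [w, dif_pos hs]
      refine hf2 w t ht ⟨?_, ?_⟩ ?_
      · intro i j hi hj hij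
        rw [hw i hi, hw j hj, Prod.mk.injEq] at hij
        have h1 := hN _ (hvF ⟨i, hi⟩)
        have h2 := hN _ (hvF ⟨j, hj⟩)
        have h3 : v ⟨i, hi⟩ = v ⟨j, hj⟩ := by
          refine Prod.ext ?_ hij.2
          have := hij.1
          omega
        have h4 := hv h3
        exact congrArg Fin.val h4
      · intro i hi
        have hi' : i < 2 * t := by omega
        rw [hw i hi', hw (i + 1) hi]
        have h1 := hN _ (hvF ⟨i, hi'⟩)
        have h2 := hN _ (hvF ⟨i + 1, hi⟩)
        have h3 := ha ⟨i, hi'⟩ ⟨i + 1, hi⟩ rfl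
        rcases h3 with h3 | ⟨h3, h4⟩
        · rcases h3 with h3 | h3
          · left
            have h5 := Order.covBy_iff_add_one_eq.1 h3
            simp only
            omega
          · right; left
            have h5 := Order.covBy_iff_add_one_eq.1 h3
            simp only
            omega
        · right; right
          refine ⟨?_, ?_⟩
          · simp only [h3]
          · exact h4.ne
      · intro i hi
        have hi' : i < 2 * t := by omega
        have hi2 : i + t < 2 * t := by omega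
        have h1 := hrep ⟨i, hi'⟩ ⟨i + t, hi2⟩ rfl
        simp only [if_pos (hN _ (hvF ⟨i, hi'⟩)), if_pos (hN _ (hvF ⟨i + t, hi2⟩))] at h1
        rw [hw i hi', hw (i + t) hi2]
        exact h1

/-- **Linear Thue choice number of the blown-up infinite path.** For every `k`, the Thue choice
number of `P[K_k]` is at most `115200 k`, for the two-way infinite path (the Hasse diagram of `ℤ`),
the one-way infinite path (the Hasse diagram of `ℕ`) and all finite paths `P_n`. -/
theorem result :
    ∀ k : ℕ,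
      thueChoice (lexProd (SimpleGraph.hasse ℤ) (⊤ : SimpleGraph (Fin k))) ≤ (115200 * k : ℕ) ∧
      thueChoice (lexProd (SimpleGraph.hasse ℕ) (⊤ : SimpleGraph (Fin k))) ≤ (115200 * k : ℕ) ∧
      ∀ n : ℕ, thueChoice (lexProd (SimpleGraph.pathGraph n) (⊤ : SimpleGraph (Fin k))) ≤
        (115200 * k : ℕ) := by
  intro k
  refine ⟨thueChoice_le (good_line k), thueChoice_le ?_, fun n => thueChoice_le ?_⟩
  · refine (good_line k).of_embedding (fun p => ((p.1 : ℤ), p.2)) ?_ ?_
    · intro p q h
      rw [Prod.mk.injEq] at h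
      exact Prod.ext (by exact_mod_cast h.1) h.2
    · rintro p q (h | ⟨h1, h2⟩)
      · left
        rcases h with h | h
        · left
          have h5 := Order.covBy_iff_add_one_eq.1 h
          exact Order.covBy_iff_add_one_eq.2 (by push_cast [← h5]; rfl)
        · right
          have h5 := Order.covBy_iff_add_one_eq.1 h
          exact Order.covBy_iff_add_one_eq.2 (by push_cast [← h5]; rfl)
      · right
        exact ⟨by simp only [h1], h2⟩
  · refine (good_line k).of_embedding (fun p => (((p.1 : ℕ) : ℤ), p.2)) ?_ ?_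
    · intro p q h
      rw [Prod.mk.injEq] at h
      exact Prod.ext (Fin.ext (by exact_mod_cast h.1)) h.2
    · rintro p q (h | ⟨h1, h2⟩)
      · left
        rcases SimpleGraph.pathGraph_adj.1 h with h5 | h5
        · left
          exact Order.covBy_iff_add_one_eq.2 (by simp only; omega)
        · right
          exact Order.covBy_iff_add_one_eq.2 (by simp only; omega)
      · right
        exact ⟨by simp only [h1], h2⟩

end Pool.Agent.Results.MP_0e9ba1_co.LinearThueChoice
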